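import Pool.Agent.Y17.G.Defs

/-!
# `S_GENbQG` from `S_ABS1`, `S_ABS2` (job Z17G-GENBQ)

The sum over the genus characters for a fixed `b`, norms `pr D1`, `3 pr D2`.
-/

set_option autoImplicit false

namespace Pool.Agent.Z141.G

open Finset Pool.Agent.Y17.G
open Pool.Agent.Y17.N (Sp)
open Pool.Agent.Z700 (pr fac hh od)

lemma js_prod_left {α : Type*} (s : Finset α) (f : α → ℤ) (b : ℕ) :
    jacobiSym (∏ i ∈ s, f i) b = ∏ i ∈ s, jacobiSym (f i) b := by
  classical
  induction s using Finset.induction_on with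
  | empty => simp
  | insert a t ha ih => rw [Finset.prod_insert ha, Finset.prod_insert ha, jacobiSym.mul_left, ih]

lemma js_pr (A : Finset ℕ) (l : ℕ) : jacobiSym (pr A : ℤ) l = ∏ p ∈ A, jacobiSym (p : ℤ) l := by
  rw [pr]
  push_cast
  exact js_prod_left _ _ _

lemma pr_erase {A : Finset ℕ} {p : ℕ} (hp : p ∈ A) : pr A = p * pr (A.erase p) := by
  rw [pr, pr, Finset.mul_prod_erase A (fun p => p) hp]

lemma pr_coprime {A : Finset ℕ} (hA : ∀ p ∈ A, p.Prime) {q : ℕ} (hq : q.Prime) (h : q ∉ A) :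
    Nat.Coprime (pr A) q := by
  rw [pr]
  refine Nat.Coprime.prod_left fun i hi => ?_
  rw [Nat.coprime_primes (hA i hi) hq]
  rintro rfl
  exact h hi

lemma js_unit {a b : ℕ} (h : Nat.Coprime a b) : jacobiSym (a : ℤ) b = 1 ∨ jacobiSym (a : ℤ) b = -1 :=
  jacobiSym.eq_one_or_neg_one (by simpa using h)

/-- the primes of `D` different from `2`, `7` -/
def SS (D : ℕ) : Finset ℕ := (D.primeFactors.erase 2).erase 7

lemma mem_SS {D l : ℕ} (hl : l ∈ SS D) : l ≠ 7 ∧ l ≠ 2 ∧ l.Prime ∧ l ∣ D := by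
  rw [SS, Finset.mem_erase, Finset.mem_erase, Nat.mem_primeFactors] at hl
  exact ⟨hl.1, hl.2.1, hl.2.2.1, hl.2.2.2.1⟩

lemma mem_SS' {D l : ℕ} (h0 : D ≠ 0) (h7 : l ≠ 7) (h2 : l ≠ 2) (hp : l.Prime)
    (hD : l ∣ D) : l ∈ SS D := by
  rw [SS, Finset.mem_erase, Finset.mem_erase, Nat.mem_primeFactors]
  exact ⟨h7, h2, hp, hD, h0⟩

lemma erase_mul {M : Type*} [CommMonoid M] (s : Finset ℕ) (f : ℕ → M) (q : ℕ)
    (h : q ∉ s → f q = 1) : f q * ∏ l ∈ s.erase q, f l = ∏ l ∈ s, f l := by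
  by_cases hq : q ∈ s
  · exact Finset.mul_prod_erase s f hq
  · rw [h hq, one_mul, Finset.erase_eq_of_notMem hq]

/-- the decomposition of `D` -/
lemma D_decomp {D : ℕ} (hD : 0 < D) :
    D = 2 ^ D.factorization 2 * (7 ^ D.factorization 7 *
      ∏ l ∈ SS D, l ^ D.factorization l) := by
  have h0 : ∏ l ∈ D.primeFactors, l ^ D.factorization l = D :=
    Nat.prod_factorization_pow_eq_self hD.ne'
  have hz : ∀ q, q.Prime → q ∉ D.primeFactors → D.factorization q = 0 := by
    intro q hq h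
    rw [Nat.mem_primeFactors] at h
    apply Nat.factorization_eq_zero_of_not_dvd
    intro hd
    exact h ⟨hq, hd, hD.ne'⟩
  rw [SS, erase_mul _ (fun l => l ^ D.factorization l) 7, erase_mul _
    (fun l => l ^ D.factorization l) 2, h0]
  · intro h; rw [hz 2 Nat.prime_two h, pow_zero]
  · intro h
    rw [hz 7 (by norm_num) (fun h' => h (Finset.mem_erase.2 ⟨by norm_num, h'⟩)), pow_zero]

/-! ### symbols -/

/-- the sign in the reciprocity law -/
def sg (n p : ℕ) : ℤ := if p % 4 = 3 then (if n % 4 = 3 then -1 else 1) else 1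

lemma sg_mul {p : ℕ} {m n : ℕ} (hm : Odd m) (hn : Odd n) : sg (m * n) p = sg m p * sg n p := by
  unfold sg
  obtain ⟨a, rfl⟩ := hm
  obtain ⟨b, rfl⟩ := hn
  by_cases hp : p % 4 = 3
  · simp only [if_pos hp]
    have h1 : (2 * a + 1) % 4 = 1 ∨ (2 * a + 1) % 4 = 3 := by omega
    have h2 : (2 * b + 1) % 4 = 1 ∨ (2 * b + 1) % 4 = 3 := by omega
    rw [Nat.mul_mod]
    rcases h1 with h1 | h1 <;> rcases h2 with h2 | h2 <;> rw [h1, h2] <;> norm_num
  · simp only [if_neg hp]
    norm_num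

lemma sg_sq (n p : ℕ) : sg n p = 1 ∨ sg n p = -1 := by
  unfold sg
  split_ifs
  · right; rfl
  · left; rfl
  · left; rfl

lemma sg_mul_self (n p : ℕ) : sg n p * sg n p = 1 := by
  rcases sg_sq n p with h | h <;> rw [h] <;> norm_num

/-- the reciprocity law -/
lemma recip {p n : ℕ} (hp : Odd p) (hn : Odd n) :
    jacobiSym (p : ℤ) n = jacobiSym (n : ℤ) p * sg n p := by
  unfold sg
  have hp' := Nat.odd_iff.1 hp
  have hn' := Nat.odd_iff.1 hn
  by_cases h : p % 4 = 3
  · rw [if_pos h]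
    by_cases h2 : n % 4 = 3
    · rw [if_pos h2, jacobiSym.quadratic_reciprocity_three_mod_four h h2]
      ring
    · rw [if_neg h2, mul_one]
      exact (jacobiSym.quadratic_reciprocity_one_mod_four (by omega) hp).symm
  · rw [if_neg h, mul_one]
    exact jacobiSym.quadratic_reciprocity_one_mod_four (by omega) hn

/-- the symbol of `-1` -/
lemma js_neg_one {p : ℕ} (hp : Odd p) : jacobiSym (-1) p = sg p p := by
  unfold sg
  have hp' := Nat.odd_iff.1 hp
  rw [jacobiSym.at_neg_one hp]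
  by_cases h : p % 4 = 3
  · rw [if_pos h, if_pos h]
    exact ZMod.χ₄_nat_three_mod_four h
  · rw [if_neg h]
    exact ZMod.χ₄_nat_one_mod_four (by omega)

/-- facts -/
lemma cl_facts {A : Finset ℕ} (hA : Cl A) {p : ℕ} (hp : p ∈ A) :
    p.Prime ∧ p ≠ 2 ∧ p ≠ 3 ∧ p ≠ 7 ∧ Odd p ∧ (p % 8 = 1 ∨ p % 8 = 3 ∨ p % 8 = 5) := by
  have h3 : p ≠ 3 := by
    rintro rfl
    exact hA.2 hp
  rcases hA.1 p hp with h | h
  · obtain ⟨h1, h2, h4⟩ := h
    refine ⟨h1, ?_, h3, ?_, Nat.odd_iff.2 ?_, ?_⟩ <;> omega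
  · obtain ⟨h1, h2, h4⟩ := h
    refine ⟨h1, ?_, h3, ?_, Nat.odd_iff.2 ?_, ?_⟩ <;> omega

lemma cl_sp {A : Finset ℕ} (hA : Cl A) {p : ℕ} (hp : p ∈ sp A) : p ∈ A ∧ Sp p := by
  rw [sp, Finset.mem_filter] at hp
  refine ⟨hp.1, ?_⟩
  rcases hA.1 p hp.1 with h | h
  · exact h
  · have := h.2.1
    omega

lemma cl_i3 {A : Finset ℕ} (hA : Cl A) {p : ℕ} (hp : p ∈ i3 A) : p ∈ A ∧ In p ∧ p % 8 = 3 := by
  rw [i3, Finset.mem_filter] at hp
  refine ⟨hp.1, ?_, hp.2⟩
  rcases hA.1 p hp.1 with h | h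
  · have := h.2.1
    omega
  · exact h

lemma cl_i5 {A : Finset ℕ} (hA : Cl A) {p : ℕ} (hp : p ∈ i5 A) : p ∈ A ∧ In p ∧ p % 8 = 5 := by
  rw [i5, Finset.mem_filter] at hp
  refine ⟨hp.1, ?_, hp.2⟩
  rcases hA.1 p hp.1 with h | h
  · have := h.2.1
    omega
  · exact h

lemma js_two {p : ℕ} (hp : Odd p) :
    jacobiSym 2 p = if p % 8 = 1 ∨ p % 8 = 7 then 1 else -1 := by
  rw [jacobiSym.at_two hp, ZMod.χ₈_nat_eq_if_mod_eight]
  have : ¬ p % 2 = 0 := by
    have := Nat.odd_iff.1 hp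
    omega
  rw [if_neg this]

/-- the symbol modulo seven -/
lemma js_mod7 {p : ℕ} : (p % 7 = 1 ∨ p % 7 = 2 ∨ p % 7 = 4 → jacobiSym (p : ℤ) 7 = 1) ∧
    (p % 7 = 3 ∨ p % 7 = 5 ∨ p % 7 = 6 → jacobiSym (p : ℤ) 7 = -1) := by
  have hm : jacobiSym (p : ℤ) 7 = jacobiSym (((p % 7 : ℕ) : ℤ)) 7 := by
    rw [jacobiSym.mod_left]
    push_cast
    rfl
  constructor
  · intro h
    rw [hm]
    rcases h with h | h | h <;> rw [h] <;> norm_num
  · intro h
    rw [hm]
    rcases h with h | h | h <;> rw [h] <;> norm_num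

lemma js_seven {p : ℕ} (hp : Odd p) : jacobiSym 7 p = jacobiSym (p : ℤ) 7 * sg 7 p := by
  have h := recip (p := p) (n := 7) hp (by decide)
  have h2 := sg_mul_self 7 p
  have h3 : jacobiSym ((7 : ℕ) : ℤ) p = jacobiSym (7 : ℤ) p := by norm_num
  rw [h3] at h
  rw [h, mul_assoc, h2, mul_one]

/-- the characters -/
def ee (A : Finset ℕ) (l p : ℕ) : ℤ :=
  if l = p then jacobiSym ((3 * pr (A.erase p) : ℕ) : ℤ) p else jacobiSym (p : ℤ) l

section

variable {A : Finset ℕ} (hA : Cl A)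

include hA in
lemma cop_erase {p : ℕ} (hp : p ∈ A) : Nat.Coprime (3 * pr (A.erase p)) p := by
  obtain ⟨h1, h2, h3, h7, ho, h8⟩ := cl_facts hA hp
  refine Nat.Coprime.mul_left ?_ ?_
  · exact (Nat.coprime_primes Nat.prime_three h1).2 fun e => h3 e.symm
  · exact pr_coprime (fun r hr => (cl_facts hA (Finset.mem_of_mem_erase hr)).1) h1
      (Finset.notMem_erase _ _)

include hA in
lemma ee_unit {D l : ℕ} (hl : l ∈ SS D) {p : ℕ} (hp : p ∈ A) :
    ee A l p = 1 ∨ ee A l p = -1 := by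
  obtain ⟨-, -, hlp, -⟩ := mem_SS hl
  have hpp := (cl_facts hA hp).1
  rw [ee]
  split_ifs with h
  · exact js_unit (cop_erase hA hp)
  · exact js_unit ((Nat.coprime_primes hpp hlp).2 (fun e => h e.symm))

include hA in
/-- primes of the family dividing `D` divide it exactly once -/
lemma sp_div {b : ℤ} {D : ℕ} (hD : 0 < D)
    (hDD : (D : ℤ) = 3 * (pr A : ℤ) - b ^ 2) {p : ℕ} (hp : p ∈ A) (hpD : p ∣ D) :
    ∃ D' : ℕ, D = p * D' ∧ ¬ p ∣ D' ∧ D.factorization p = 1 ∧
      jacobiSym (D' : ℤ) p = jacobiSym ((3 * pr (A.erase p) : ℕ) : ℤ) p := by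
  have hpp := (cl_facts hA hp).1
  obtain ⟨D', rfl⟩ := hpD
  have e1 : (pr A : ℤ) = p * (pr (A.erase p) : ℤ) := by
    rw [pr_erase hp]; push_cast; ring
  have hb : (p : ℤ) ∣ b := by
    have : (p : ℤ) ∣ b ^ 2 := by
      refine ⟨3 * pr (A.erase p) - D', ?_⟩
      push_cast at hDD
      rw [e1] at hDD
      linarith
    exact (Nat.prime_iff_prime_int.1 hpp).dvd_of_dvd_pow this
  obtain ⟨c, rfl⟩ := hb
  have hp0 : (p : ℤ) ≠ 0 := by exact_mod_cast hpp.ne_zero
  have e2 : (D' : ℤ) = ((3 * pr (A.erase p) : ℕ) : ℤ) - p * c ^ 2 := by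
    push_cast at hDD ⊢
    rw [e1] at hDD
    have : (p : ℤ) * D' = p * (3 * pr (A.erase p) - p * c ^ 2) := by linarith
    exact mul_left_cancel₀ hp0 this
  have hn : ¬ p ∣ D' := by
    intro h
    have h1 : (p : ℤ) ∣ ((3 * pr (A.erase p) : ℕ) : ℤ) := by
      have : ((3 * pr (A.erase p) : ℕ) : ℤ) = D' + p * c ^ 2 := by rw [e2]; ring
      rw [this]
      exact dvd_add (by exact_mod_cast h) (Dvd.intro _ rfl)
    have h2 : p ∣ 3 * pr (A.erase p) := by exact_mod_cast h1
    have := Nat.Coprime.eq_one_of_dvd (cop_erase hA hp).symm h2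
    exact hpp.one_lt.ne' this
  refine ⟨D', rfl, hn, ?_, ?_⟩
  · have hD' : D' ≠ 0 := by
      rintro rfl
      simp at hD
    rw [Nat.factorization_mul hpp.ne_zero hD', Finsupp.add_apply, hpp.factorization_self,
      Nat.factorization_eq_zero_of_not_dvd hn]
  · have h5 : (D' : ℤ) % p = ((3 * pr (A.erase p) : ℕ) : ℤ) % p := by
      rw [e2, Int.sub_mul_emod_self_left]
    rw [jacobiSym.mod_left' h5]

include hA in
/-- the local factor as a geometric sum -/
lemma fac_eq {b : ℤ} {D : ℕ} (hD : 0 < D)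
    (hDD : (D : ℤ) = 3 * (pr A : ℤ) - b ^ 2) {l : ℕ} (hl : l ∈ SS D) {D1 : Finset ℕ}
    (h1 : D1 ⊆ A) :
    fac (pr D1) D l = ∑ j ∈ range (D.factorization l + 1),
      (jacobiSym (-1) l * ∏ p ∈ D1, ee A l p) ^ j := by
  obtain ⟨h7, h2, hlp, hlD⟩ := mem_SS hl
  by_cases hd : l ∈ D1
  · obtain ⟨D', hD1, hD2, hD3, hD4⟩ := sp_div hA hD hDD (h1 hd) hlD
    have e1 : pr D1 = l * pr (D1.erase l) := pr_erase hd
    have hdiv : l ∣ pr D1 := by rw [e1]; exact Dvd.intro _ rfl
    rw [fac, if_pos hdiv, hD3, hh, hD3, if_neg (by decide)]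
    have e2 : pr D1 / l = pr (D1.erase l) := by
      rw [e1, Nat.mul_div_cancel_left _ hlp.pos]
    have e3 : D / l ^ 1 = D' := by rw [pow_one, hD1, Nat.mul_div_cancel_left _ hlp.pos]
    rw [e2, e3, Finset.sum_range_succ, Finset.sum_range_one, pow_zero, pow_one]
    congr 1
    have e4 : (-((pr (D1.erase l) * D' : ℕ) : ℤ)) =
        (-1) * (pr (D1.erase l) : ℤ) * (D' : ℤ) := by
      push_cast; ring
    rw [e4, jacobiSym.mul_left, jacobiSym.mul_left, hD4, js_pr (D1.erase l),
      ← Finset.mul_prod_erase D1 (fun p => ee A l p) hd]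
    have e5 : ee A l l = jacobiSym ((3 * pr (A.erase l) : ℕ) : ℤ) l := by rw [ee, if_pos rfl]
    have e6 : ∏ p ∈ D1.erase l, ee A l p = ∏ p ∈ D1.erase l, jacobiSym (p : ℤ) l := by
      refine Finset.prod_congr rfl fun p hp => ?_
      rw [ee, if_neg]
      rintro rfl
      exact (Finset.mem_erase.1 hp).1 rfl
    rw [e5, e6]
    ring
  · have hdiv : ¬ l ∣ pr D1 := by
      intro h
      have c1 : Nat.Coprime (pr D1) l :=
        pr_coprime (fun r hr => (cl_facts hA (h1 hr)).1) hlp hd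
      exact hlp.one_lt.ne' (Nat.Coprime.eq_one_of_dvd c1.symm h)
    rw [fac, if_neg hdiv]
    refine Finset.sum_congr rfl fun j _ => ?_
    congr 1
    have e4 : (-((pr D1 : ℕ) : ℤ)) = (-1) * (pr D1 : ℤ) := by ring
    rw [e4, jacobiSym.mul_left, js_pr]
    congr 1
    refine Finset.prod_congr rfl fun p hp => ?_
    rw [ee, if_neg]
    rintro rfl
    exact hd hp

lemma SS_odd {D l : ℕ} (hl : l ∈ SS D) : Odd l := by
  obtain ⟨-, h2, hlp, -⟩ := mem_SS hl
  exact hlp.odd_of_ne_two h2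

/-- products over primes different from `p` -/
lemma prod_sw {D : ℕ} {p : ℕ} (hp : Odd p) (g : ℕ → ℕ) (s : Finset ℕ) (hs : s ⊆ SS D)
    (hps : p ∉ s) : ∏ l ∈ s, (ee A l p) ^ (g l) =
      jacobiSym ((∏ l ∈ s, l ^ g l : ℕ) : ℤ) p * sg (∏ l ∈ s, l ^ g l) p := by
  have hodd : Odd (∏ l ∈ s, l ^ g l) := by
    refine Finset.prod_induction _ Odd (fun a b ha hb => ha.mul hb) odd_one fun l hl => ?_
    exact (SS_odd (hs hl)).pow
  rw [← recip hp hodd]
  have h1 : ∀ t : Finset ℕ, t ⊆ s → ∏ l ∈ t, (ee A l p) ^ (g l) =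
      jacobiSym (p : ℤ) (∏ l ∈ t, l ^ g l) := by
    intro t
    induction t using Finset.induction_on with
    | empty => intro _; simp
    | insert a t ha ih =>
      intro ht
      have has : a ∈ s := ht (Finset.mem_insert_self _ _)
      have hap : ¬ a = p := by
        rintro rfl
        exact hps has
      rw [Finset.prod_insert ha, Finset.prod_insert ha,
        ih ((Finset.subset_insert _ _).trans ht)]
      have hne1 : a ^ g a ≠ 0 := (SS_odd (hs has)).pow.pos.ne'
      have hne2 : ∏ l ∈ t, l ^ g l ≠ 0 := by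
        refine Finset.prod_ne_zero_iff.2 fun l hl => ?_
        exact (SS_odd (hs (ht (Finset.mem_insert_of_mem hl)))).pow.pos.ne'
      rw [jacobiSym.mul_right' _ hne1 hne2, jacobiSym.pow_right, ee, if_neg hap]
  exact h1 s (Finset.Subset.refl s)

include hA in
/-- the total character -/
lemma ee_total {b : ℤ} {D : ℕ} (hD : 0 < D)
    (hDD : (D : ℤ) = 3 * (pr A : ℤ) - b ^ 2) {p : ℕ} (hp : p ∈ A) :
    ∏ l ∈ SS D, (ee A l p) ^ (D.factorization l) =
      jacobiSym (-1) p * jacobiSym 2 p ^ D.factorization 2 *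
        jacobiSym 7 p ^ D.factorization 7 * sg (∏ l ∈ SS D, l ^ D.factorization l) p := by
  obtain ⟨hpp, hp2, hp3, hp7, hpo, hp8⟩ := cl_facts hA hp
  have hdec := D_decomp hD
  have hu2 : jacobiSym 2 p ^ D.factorization 2 * jacobiSym 2 p ^ D.factorization 2 = 1 := by
    have h : jacobiSym 2 p = 1 ∨ jacobiSym 2 p = -1 := by
      rw [js_two hpo]
      split_ifs
      · left; rfl
      · right; rfl
    rw [← mul_pow]
    rcases h with h | h <;> rw [h] <;> norm_num
  have hu7 : jacobiSym 7 p ^ D.factorization 7 * jacobiSym 7 p ^ D.factorization 7 = 1 := by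
    have h : jacobiSym 7 p = 1 ∨ jacobiSym 7 p = -1 := by
      have := js_unit (a := 7) (b := p) ((Nat.coprime_primes (by norm_num) hpp).2 (fun e => hp7 e.symm))
      simpa using this
    rw [← mul_pow]
    rcases h with h | h <;> rw [h] <;> norm_num
  by_cases hpD : p ∣ D
  · obtain ⟨D', hD1, hD2, hD3, hD4⟩ := sp_div hA hD hDD hp hpD
    have hpS : p ∈ SS D := mem_SS' hD.ne' hp7 hp2 hpp hpD
    have hodd : Odd (∏ l ∈ (SS D).erase p, l ^ D.factorization l) := by
      refine Finset.prod_induction _ Odd (fun a b ha hb => ha.mul hb) odd_one fun l hl => ?_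
      exact (SS_odd (Finset.mem_of_mem_erase hl)).pow
    have h5 : ∏ l ∈ SS D, l ^ D.factorization l =
        p * ∏ l ∈ (SS D).erase p, l ^ D.factorization l := by
      rw [← Finset.mul_prod_erase (SS D) (fun l => l ^ (D.factorization l)) hpS, hD3, pow_one]
    rw [← Finset.mul_prod_erase (SS D) (fun l => (ee A l p) ^ (D.factorization l)) hpS,
      prod_sw hpo _ _ (Finset.erase_subset _ _) (Finset.notMem_erase _ _), hD3, pow_one, h5,
      sg_mul hpo hodd]
    have e0 : ee A p p = jacobiSym ((3 * pr (A.erase p) : ℕ) : ℤ) p := by rw [ee, if_pos rfl]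
    have e1 : D' = 2 ^ D.factorization 2 * (7 ^ D.factorization 7 *
        ∏ l ∈ (SS D).erase p, l ^ D.factorization l) := by
      rw [h5] at hdec
      apply Nat.eq_of_mul_eq_mul_left hpp.pos
      rw [← hD1]
      conv_lhs => rw [hdec]
      ring
    have e2 : jacobiSym (D' : ℤ) p = jacobiSym 2 p ^ D.factorization 2 *
        (jacobiSym 7 p ^ D.factorization 7 *
        jacobiSym ((∏ l ∈ (SS D).erase p, l ^ D.factorization l : ℕ) : ℤ) p) := by
      have : (D' : ℤ) = 2 ^ D.factorization 2 * (7 ^ D.factorization 7 *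
        ((∏ l ∈ (SS D).erase p, l ^ D.factorization l : ℕ) : ℤ)) := by
        conv_lhs => rw [e1]
        push_cast
        ring
      rw [this, jacobiSym.mul_left, jacobiSym.mul_left, jacobiSym.pow_left,
        jacobiSym.pow_left]
    have e3 : jacobiSym (D' : ℤ) p * jacobiSym (D' : ℤ) p = 1 := by
      rw [hD4]
      rcases js_unit (cop_erase hA hp) with h | h <;> rw [h] <;> norm_num
    rw [e0, ← hD4, js_neg_one hpo]
    set J := jacobiSym ((∏ l ∈ (SS D).erase p, l ^ D.factorization l : ℕ) : ℤ) p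
    set x := jacobiSym 2 p ^ D.factorization 2
    set y := jacobiSym 7 p ^ D.factorization 7
    set s := sg (∏ l ∈ (SS D).erase p, l ^ D.factorization l) p
    have e4 := sg_mul_self p p
    have e5 : jacobiSym (D' : ℤ) p * J = x * y := by
      have : J = x * y * jacobiSym (D' : ℤ) p := by
        rw [e2]
        calc J = (x * x) * (y * y) * J := by rw [hu2, hu7]; ring
          _ = _ := by ring
      rw [this]
      calc _ = x * y * (jacobiSym (D' : ℤ) p * jacobiSym (D' : ℤ) p) := by ring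
        _ = _ := by rw [e3, mul_one]
    calc jacobiSym (D' : ℤ) p * (J * s) = (jacobiSym (D' : ℤ) p * J) * s := by ring
      _ = x * y * s := by rw [e5]
      _ = (sg p p * sg p p) * (x * y * s) := by rw [e4, one_mul]
      _ = _ := by ring
  · have hpS : p ∉ SS D := fun h => hpD (mem_SS h).2.2.2
    rw [prod_sw hpo _ _ (Finset.Subset.refl _) hpS]
    congr 1
    have e2 : jacobiSym (D : ℤ) p = jacobiSym 2 p ^ D.factorization 2 *
        (jacobiSym 7 p ^ D.factorization 7 *
        jacobiSym ((∏ l ∈ SS D, l ^ D.factorization l : ℕ) : ℤ) p) := by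
      have : (D : ℤ) = 2 ^ D.factorization 2 * (7 ^ D.factorization 7 *
        ((∏ l ∈ SS D, l ^ D.factorization l : ℕ) : ℤ)) := by
        conv_lhs => rw [hdec]
        push_cast
        ring
      rw [this, jacobiSym.mul_left, jacobiSym.mul_left, jacobiSym.pow_left,
        jacobiSym.pow_left]
    have e1 : (pr A : ℤ) = p * (pr (A.erase p) : ℤ) := by
      rw [pr_erase hp]; push_cast; ring
    have hpb : ¬ (p : ℤ) ∣ b := by
      rintro ⟨c, rfl⟩
      apply hpD
      have : (p : ℤ) ∣ D := by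
        rw [hDD, e1]
        exact ⟨3 * pr (A.erase p) - p * c ^ 2, by ring⟩
      exact_mod_cast this
    have e3 : (D : ℤ) % p = (-1 * b ^ 2) % p := by
      rw [hDD, e1]
      have : 3 * ((p : ℤ) * (pr (A.erase p) : ℤ)) - b ^ 2 =
        -1 * b ^ 2 + p * (3 * (pr (A.erase p) : ℤ)) := by ring
      rw [this, Int.add_mul_emod_self_left]
    have e6 : jacobiSym (b ^ 2) p = 1 := by
      apply jacobiSym.sq_one'
      rw [Int.gcd_comm]
      exact (Int.isCoprime_iff_gcd_eq_one).1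
        ((Prime.coprime_iff_not_dvd (Nat.prime_iff_prime_int.1 hpp)).2 hpb)
    have e7 : jacobiSym (-1) p = jacobiSym (D : ℤ) p := by
      rw [jacobiSym.mod_left' e3, jacobiSym.mul_left, e6, mul_one]
    rw [e7, e2]
    set J := jacobiSym ((∏ l ∈ SS D, l ^ D.factorization l : ℕ) : ℤ) p
    set x := jacobiSym 2 p ^ D.factorization 2
    set y := jacobiSym 7 p ^ D.factorization 7
    calc J = (x * x) * (y * y) * J := by rw [hu2, hu7]; ring
      _ = _ := by ring

/-- the sign depends only on the class of `p` -/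
lemma sg_congr (n : ℕ) {p p' : ℕ} (h : p % 4 = p' % 4) : sg n p = sg n p' := by
  unfold sg
  rw [h]

include hA in
/-- the total character satisfies the condition -/
lemma cnd_total {b : ℤ} {D : ℕ} (hD : 0 < D) (hDD : (D : ℤ) = 3 * (pr A : ℤ) - b ^ 2) :
    cnd A fun p => ∏ l ∈ SS D, (ee A l p) ^ (D.factorization l) := by
  have hIn : ∀ r, In r → jacobiSym (r : ℤ) 7 = -1 := fun r hr => js_mod7.2 hr.2.2
  refine ⟨fun p hp => ?_, fun r hr r' hr' => ?_, fun r hr r' hr' => ?_⟩
  · obtain ⟨hpA, hs⟩ := cl_sp hA hp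
    have hpo := (cl_facts hA hpA).2.2.2.2.1
    have h8 := hs.2.1
    show ∏ l ∈ SS D, (ee A l p) ^ (D.factorization l) = 1
    have hsg : ∀ n, sg n p = 1 := by
      intro n
      unfold sg
      rw [if_neg (by omega)]
    rw [ee_total hA hD hDD hpA, js_neg_one hpo, hsg, hsg, js_two hpo, if_pos (Or.inl h8),
      js_seven hpo, hsg, js_mod7.1 hs.2.2]
    norm_num
  · obtain ⟨h1, h2, h3⟩ := cl_i3 hA hr
    obtain ⟨h1', h2', h3'⟩ := cl_i3 hA hr'
    have ho := (cl_facts hA h1).2.2.2.2.1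
    have ho' := (cl_facts hA h1').2.2.2.2.1
    show ∏ l ∈ SS D, (ee A l r) ^ (D.factorization l) =
      ∏ l ∈ SS D, (ee A l r') ^ (D.factorization l)
    rw [ee_total hA hD hDD h1, ee_total hA hD hDD h1', js_neg_one ho, js_neg_one ho', js_two ho,
      js_two ho', js_seven ho, js_seven ho', hIn r h2, hIn r' h2', if_neg (by omega),
      if_neg (by omega)]
    have h4 : ∀ n, sg n r = sg n r' := fun n => sg_congr n (by omega)
    have h5 : sg r r = sg r' r' := by
      unfold sg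
      rw [if_pos (by omega), if_pos (by omega), if_pos (by omega), if_pos (by omega)]
    rw [h5, h4, h4]
  · obtain ⟨h1, h2, h3⟩ := cl_i5 hA hr
    obtain ⟨h1', h2', h3'⟩ := cl_i5 hA hr'
    have ho := (cl_facts hA h1).2.2.2.2.1
    have ho' := (cl_facts hA h1').2.2.2.2.1
    show ∏ l ∈ SS D, (ee A l r) ^ (D.factorization l) =
      ∏ l ∈ SS D, (ee A l r') ^ (D.factorization l)
    rw [ee_total hA hD hDD h1, ee_total hA hD hDD h1', js_neg_one ho, js_neg_one ho', js_two ho,
      js_two ho', js_seven ho, js_seven ho', hIn r h2, hIn r' h2', if_neg (by omega),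
      if_neg (by omega)]
    have h4 : ∀ n, sg n r = sg n r' := fun n => sg_congr n (by omega)
    have h5 : sg r r = sg r' r' := by
      unfold sg
      rw [if_neg (by omega), if_neg (by omega)]
    rw [h5, h4, h4]

/-- the condition is insensitive to reciprocity -/
lemma cnd_recip (hA : Cl A) {c : ℕ → ℤ} {y : ℕ}
    (h : ∀ p ∈ A, c p = jacobiSym (y : ℤ) p * sg y p) : cnd A c ↔ Cond y A := by
  unfold Cond cnd
  have hu : ∀ a x : ℤ, a * a = 1 → ∀ x', (x * a = x' * a ↔ x = x') := by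
    intro a x ha x'
    constructor
    · intro h1
      have := congrArg (· * a) h1
      simpa [mul_assoc, ha] using this
    · rintro rfl
      rfl
  refine and_congr ?_ (and_congr ?_ ?_)
  · refine forall_congr' fun p => forall_congr' fun hp => ?_
    obtain ⟨hpA, hs⟩ := cl_sp hA hp
    have hsg : sg y p = 1 := by
      unfold sg
      rw [if_neg (by have := hs.2.1; omega)]
    rw [h p hpA, hsg, mul_one]
  · refine forall_congr' fun r => forall_congr' fun hr => forall_congr' fun r' =>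
      forall_congr' fun hr' => ?_
    obtain ⟨h1, h2, h3⟩ := cl_i3 hA hr
    obtain ⟨h1', h2', h3'⟩ := cl_i3 hA hr'
    rw [h r h1, h r' h1', sg_congr y (show r' % 4 = r % 4 by omega)]
    exact hu _ _ (sg_mul_self y r) _
  · refine forall_congr' fun r => forall_congr' fun hr => forall_congr' fun r' =>
      forall_congr' fun hr' => ?_
    obtain ⟨h1, h2, h3⟩ := cl_i5 hA hr
    obtain ⟨h1', h2', h3'⟩ := cl_i5 hA hr'
    rw [h r h1, h r' h1', sg_congr y (show r' % 4 = r % 4 by omega)]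
    exact hu _ _ (sg_mul_self y r) _

include hA in
/-- the condition in terms of `od D` -/
lemma cond_iff {b : ℤ} {D : ℕ} (hD : 0 < D)
    (hDD : (D : ℤ) = 3 * (pr A : ℤ) - b ^ 2) :
    ((∀ l ∈ SS D, Even (D.factorization l)) ∧
      cnd A fun p => ∏ l ∈ SS D, (ee A l p) ^ (D.factorization l / 2)) ↔
    ∃ y : ℕ, od D = y ^ 2 ∧ Cond y A := by
  have hod : od D = ∏ l ∈ SS D, l ^ D.factorization l := by
    have hdec := D_decomp hD
    rw [← mul_assoc] at hdec
    rw [od]
    apply Nat.div_eq_of_eq_mul_right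
    · positivity
    · exact hdec
  have key : (∀ l ∈ SS D, Even (D.factorization l)) →
      ((cnd A fun p => ∏ l ∈ SS D, (ee A l p) ^ (D.factorization l / 2)) ↔
        Cond ((∏ l ∈ SS D, l ^ (D.factorization l / 2) : ℕ) : ℤ) A) := by
    intro hev
    refine cnd_recip hA fun p hp => ?_
    refine prod_sw (cl_facts hA hp).2.2.2.2.1 (fun l => D.factorization l / 2) (SS D)
      (Finset.Subset.refl _) ?_
    intro hpS
    obtain ⟨D', hD1, hD2, hD3, hD4⟩ := sp_div hA hD hDD hp (mem_SS hpS).2.2.2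
    have := hev p hpS
    rw [hD3] at this
    exact absurd this (by decide)
  constructor
  · rintro ⟨hev, h⟩
    refine ⟨∏ l ∈ SS D, l ^ (D.factorization l / 2), ?_, (key hev).1 h⟩
    rw [hod, ← Finset.prod_pow]
    refine Finset.prod_congr rfl fun l hl => ?_
    rw [← pow_mul, Nat.div_mul_cancel (even_iff_two_dvd.1 (hev l hl))]
  · rintro ⟨y, hy, hyp⟩
    have hdec : D = 2 ^ D.factorization 2 * (7 ^ D.factorization 7 * y ^ 2) := by
      have hdec := D_decomp hD
      rwa [← hod, hy] at hdec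
    have hy0 : y ≠ 0 := by
      rintro rfl
      rw [hdec] at hD
      simp at hD
    have hfac : ∀ l ∈ SS D, D.factorization l = 2 * y.factorization l := by
      intro l hl
      obtain ⟨h7, h2, hlp, -⟩ := mem_SS hl
      conv_lhs => rw [hdec]
      rw [Nat.factorization_mul (by positivity) (by positivity),
        Nat.factorization_mul (by positivity) (by positivity), Nat.factorization_pow,
        Nat.factorization_pow, Nat.factorization_pow]
      simp only [Finsupp.add_apply, Finsupp.smul_apply, smul_eq_mul]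
      rw [Nat.Prime.factorization Nat.prime_two, Nat.Prime.factorization (by norm_num : Nat.Prime 7),
        Finsupp.single_eq_of_ne h2, Finsupp.single_eq_of_ne h7]
      ring
    have hev : ∀ l ∈ SS D, Even (D.factorization l) := fun l hl => by
      rw [hfac l hl]; exact even_two_mul _
    refine ⟨hev, ?_⟩
    rw [key hev]
    have : ∏ l ∈ SS D, l ^ (D.factorization l / 2) = y := by
      have e : (∏ l ∈ SS D, l ^ (D.factorization l / 2)) ^ 2 = y ^ 2 := by
        rw [← hy, hod, ← Finset.prod_pow]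
        refine Finset.prod_congr rfl fun l hl => ?_
        rw [← pow_mul, Nat.div_mul_cancel (even_iff_two_dvd.1 (hev l hl))]
      exact Nat.pow_left_injective (n := 2) (by norm_num) e
    rw [this]
    exact hyp

end

/-- GENbQG -/
theorem t_GENbQG (h1 : S_ABS1) (h2 : S_ABS2) : S_GENbQG := by
  intro A hA hT b _ D hD hDD _
  have hi3 : (i3 A).Nonempty := by
    rw [← Finset.card_pos]
    have := hT.1
    omega
  have hm8 : ∀ p ∈ A, p % 8 = 1 ∨ p % 8 = 3 ∨ p % 8 = 5 := fun p hp =>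
    (cl_facts hA hp).2.2.2.2.2
  obtain ⟨n, hn, hn2⟩ := h1 (SS D) (fun i => D.factorization i) (fun i => jacobiSym (-1) i)
    (fun i p => ee A i p) (fun _ => 1) A 1 (Or.inr ⟨rfl, hi3⟩) hm8
    (fun i => by
      rw [js_neg_one (SS_odd i.2)]
      exact sg_sq _ _)
    (fun i p hp => ee_unit hA i.2 hp) (fun _ _ => Or.inl rfl)
  have h3 := h2 (SS D) (fun i => D.factorization i) (fun i p => ee A i p) A hm8
    (fun i p hp => ee_unit hA i.2 hp) (by
      have h := cnd_total hA hD hDD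
      have e : (fun p => ∏ i : SS D, (ee A i p) ^ (D.factorization i)) =
          fun p => ∏ l ∈ SS D, (ee A l p) ^ (D.factorization l) := by
        funext p
        exact Finset.prod_coe_sort (SS D) (fun l => (ee A l p) ^ (D.factorization l))
      rw [e]
      exact h)
  have h3prod : ∀ D1 ∈ adm 1 A, ∏ l ∈ (D.primeFactors.erase 2).erase 7, fac (pr D1) D l =
      (∏ p ∈ D1, (1 : ℤ)) * ∏ i : SS D, ∑ j ∈ range (D.factorization i + 1),
        (jacobiSym (-1) i * ∏ p ∈ D1, ee A i p) ^ j := by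
    intro D1 hD1
    change ∏ l ∈ SS D, fac (pr D1) D l = _
    rw [← Finset.prod_coe_sort, Finset.prod_const_one, one_mul]
    refine Finset.prod_congr rfl fun i _ => ?_
    rw [adm, Finset.mem_filter, Finset.mem_powerset] at hD1
    exact fac_eq hA hD hDD i.2 hD1.1
  refine ⟨n, ?_, fun _ => ?_⟩
  · rw [Finset.sum_congr rfl h3prod, hn]
  · rw [hn2, h3, ← cond_iff hA hD hDD]
    have e : (fun p => ∏ i : SS D, (ee A i p) ^ (D.factorization i / 2)) =
        fun p => ∏ l ∈ SS D, (ee A l p) ^ (D.factorization l / 2) := by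
      funext p
      exact Finset.prod_coe_sort (SS D) (fun l => (ee A l p) ^ (D.factorization l / 2))
    rw [e]
    refine and_congr_left fun _ => ?_
    exact ⟨fun h l hl => h ⟨l, hl⟩, fun h i => h i.1 i.2⟩

end Pool.Agent.Z141.G
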